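import Pool.Agent.V11296.CY9

/-!
The prime factors `p` of the values `n^2+1`, and of those of eight further polynomials `F`, for which
`n` is congruent modulo `p` to a prescribed root of `F` modulo `p`; the roots are prescribed for all
primes `p` in an arbitrary way.

The starting files have the cancellation theorems `W251.EG.twG`, `W251.EG.tsG` for products
`g₁(d) g₂(d')` over the factorisations `F(n) = d d'`, for completely multiplicative functions `g₁`,
`g₂` of integers, and the bilinear estimate `W251.EG.mainyG` behind them for functions on the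
quadratic order; the criterion `W251.EG.apdE` for aperiodicity needs that the function is determined
on the primes by residue classes. New here: a criterion for aperiodicity (`V11296.CY.apd_of`) without
any hypothesis on the values at the primes apart from `‖g(π) + g(π̄)‖ ≤ 2 - η`, proved by a
contraction argument (`V11296.CY.mean_small`), and its application to functions on the quadratic
order which do not depend on the norm only and which are arbitrary on one of the two conjugate prime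
elements: which of the two prime ideals above `p` divides `n + ω` is decided by the residue of `n`
modulo `p`.
-/

set_option autoImplicit false

namespace Pool.Agent.Results.MP_f1a94e_nt.ArbitraryRoots

open Finset Filter

open scoped Classical in
/-- the set of the positive integers `X` with `P X` has logarithmic density `0` -/
def LogNull (P : ℕ → Prop) : Prop :=
  Tendsto (fun Z : ℕ => (∑ X ∈ (Icc 1 Z).filter P, 1 / (X : ℝ)) / Real.log Z) atTop (nhds 0)

/-- the nine pairs `(t, c)` with `t` in `{0, 1}` and `x^2+tx+c` of discriminant `-4`, `-8`, `-3`,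
`-7`, `-11`, `-19`, `-43`, `-67`, `-163` -/
def nine : List (ℕ × ℕ) :=
  [(0, 1), (0, 2), (1, 1), (1, 2), (1, 3), (1, 5), (1, 11), (1, 17), (1, 41)]

/-- `ρ(p)` is a root modulo `p` of `x^2+tx+c`, for each prime `p` modulo which there is a root; it is
an arbitrary one of the (at most two) roots -/
def Choice (t c : ℕ) (ρ : ℕ → ℕ) : Prop :=
  ∀ p : ℕ, p.Prime → (∃ x : ℕ, p ∣ x ^ 2 + t * x + c) → p ∣ ρ p ^ 2 + t * ρ p + c

/-- the number of the prime factors `p` of `n^2+tn+c`, with multiplicity, with `n ≡ ρ(p) mod p` -/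
def marked (t c : ℕ) (ρ : ℕ → ℕ) (n : ℕ) : ℕ :=
  (n ^ 2 + t * n + c).primeFactorsList.countP (fun p => n ≡ ρ p [MOD p])

/-- the number of the prime factors of `n`, with multiplicity -/
def Omega (n : ℕ) : ℕ := n.primeFactorsList.length

open scoped Classical in
/-- the divisors `d ≡ r mod q` of `n^2+tn+c` with `s₁ X < d ≤ s₂ X` and `s₃ X < d' ≤ s₄ X`, where
`d d' = n^2+tn+c` -/
noncomputable def window (t c q r : ℕ) (s₁ s₂ s₃ s₄ : ℝ) (X n : ℕ) : Finset ℕ :=
  (n ^ 2 + t * n + c).divisors.filter (fun d : ℕ => d ≡ r [MOD q] ∧ s₁ * X < (d : ℝ) ∧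
    (d : ℝ) ≤ s₂ * X ∧ s₃ * X < (((n ^ 2 + t * n + c) / d : ℕ) : ℝ) ∧
    (((n ^ 2 + t * n + c) / d : ℕ) : ℝ) ≤ s₄ * X)

/-- the weight of `n`: the sum of `1 / max(d, d')` over all factorisations `n^2+tn+c = d d'` -/
noncomputable def weight (t c n : ℕ) : ℝ :=
  ∑ d ∈ (n ^ 2 + t * n + c).divisors, 1 / ((max d ((n ^ 2 + t * n + c) / d) : ℕ) : ℝ)

open scoped Classical in
/-- the number of the `n ≤ X`, `n ≡ a mod q`, with `l` marked prime factors modulo `k` and with a
factorisation `n^2+tn+c = d d'`, `d, d' ≤ X`, `Ω(d) ≡ i`, `Ω(d') ≡ j mod k` -/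
noncomputable def count (t c : ℕ) (ρ : ℕ → ℕ) (k q a i j l X : ℕ) : ℕ :=
  ((range (X + 1)).filter (fun n : ℕ => n ≡ a [MOD q] ∧ marked t c ρ n ≡ l [MOD k] ∧
    ∃ d d' : ℕ, d ≤ X ∧ d' ≤ X ∧ d * d' = n ^ 2 + t * n + c ∧ Omega d ≡ i [MOD k] ∧
      Omega d' ≡ j [MOD k])).card

open scoped Classical in
/-- Let `(t, c)` be one of the nine pairs (`(0, 1)` gives `n^2+1`) and `F(n) = n^2+tn+c`. For every
prime `p` modulo which `F` has a root, let one of the roots `ρ(p)` be chosen, in an arbitrary way, and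
let `A(n)` be the number of the prime factors `p` of `F(n)`, with multiplicity, with
`n ≡ ρ(p) mod p`. Let `k, q ≥ 1` and `a`.

1. For `0 ≤ s₁ < s₂ ≤ 1`, `0 ≤ s₃ < s₄ ≤ 1`, all `r`, `i`, `j`, `l`, every `ε > 0` and all `X` outside
a set of logarithmic density `0`, the number of the factorisations `F(n) = d d'` with `n ≤ X`
(`n ≥ 0` and `n ≥ 1 - t`), `n ≡ a mod q`, `d ≡ r mod q`, `s₁ X < d ≤ s₂ X`, `s₃ X < d' ≤ s₄ X` and
`Ω(d) ≡ i`, `Ω(d') ≡ j`, `A(n) ≡ l mod k` differs from `1 / k^3` times the number of all these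
factorisations by at most `ε X`.

2. For all `j`, `l`, the `n ≡ a mod q` with `Ω(F(n)) ≡ j` and `A(n) ≡ l mod k` have relative density
`1 / k^2` with respect to the weights `∑_{d d' = F(n)} 1 / max(d, d')`.

3. For all `i`, `j`, `l` and every `ε > 0`, outside a set of `X` of logarithmic density `0`, there are
at least `X / (log X)^(log 2 + ε)` integers `n ≤ X`, `n ≡ a mod q`, with `A(n) ≡ l mod k` and with a
factorisation `F(n) = d d'`, `d, d' ≤ X`, `Ω(d) ≡ i`, `Ω(d') ≡ j mod k`; and for every `δ > 0` and all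
large `X` there are at least `X^(1-δ)` of them. -/
theorem result (t c : ℕ) (htc : (t, c) ∈ nine) (ρ : ℕ → ℕ) (hρ : Choice t c ρ) (k q a : ℕ)
    (hk : 1 ≤ k) (hq : 1 ≤ q) :
    (∀ (r i j l : ℕ) (s₁ s₂ s₃ s₄ : ℝ), 0 ≤ s₁ → s₁ < s₂ → s₂ ≤ 1 → 0 ≤ s₃ → s₃ < s₄ → s₄ ≤ 1 →
      ∀ ε : ℝ, 0 < ε → LogNull (fun X : ℕ => ε * X <
        |∑ n ∈ (range (X + 1)).filter (fun n => 1 ≤ n + t ∧ n ≡ a [MOD q]),
          ∑ d ∈ window t c q r s₁ s₂ s₃ s₄ X n,
          ((if Omega d ≡ i [MOD k] ∧ Omega ((n ^ 2 + t * n + c) / d) ≡ j [MOD k] ∧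
            marked t c ρ n ≡ l [MOD k] then (1 : ℝ) else 0) - 1 / (k : ℝ) ^ 3)|)) ∧
    (∀ j l : ℕ, Tendsto (fun N : ℕ =>
      (∑ n ∈ (Icc 1 N).filter (fun n => n ≡ a [MOD q] ∧ Omega (n ^ 2 + t * n + c) ≡ j [MOD k] ∧
        marked t c ρ n ≡ l [MOD k]), weight t c n) /
      ∑ n ∈ (Icc 1 N).filter (fun n => n ≡ a [MOD q]), weight t c n) atTop
      (nhds (1 / (k : ℝ) ^ 2))) ∧
    (∀ i j l : ℕ,
      (∀ ε : ℝ, 0 < ε → LogNull (fun X : ℕ => (count t c ρ k q a i j l X : ℝ) <
        (X : ℝ) / Real.log X ^ (Real.log 2 + ε))) ∧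
      (∀ δ : ℝ, 0 < δ → ∃ X₀ : ℕ, ∀ X : ℕ, X₀ ≤ X →
        (X : ℝ) ^ (1 - δ) ≤ count t c ρ k q a i j l X)) := by
  obtain ⟨f, χ, hF⟩ := Pool.Agent.W251.EG.fd9 t c htc
  have hR := Pool.Agent.W251.EG.hl9 t c htc hF
  have ht := Pool.Agent.W251.EG.t_le hF
  have hc := Pool.Agent.W251.EG.c_pos hF
  have : NeZero k := ⟨by omega⟩
  have hρ' : Pool.Agent.V11296.CY.Rt t c ρ := hρ
  have hW : ∀ (g : Pool.Agent.V11296.CY.Tk k) (u : ℕ), Pool.Agent.V11296.CY.Wn t c
      (fun p => Pool.Agent.V11296.CY.HH c ρ k p) g (k ^ 3) q u := by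
    intro g u
    have h := Pool.Agent.V11296.CY.wn_HH hF hR hρ' k (AddMonoidHom.id _)
      Function.surjective_id g hq (u := u)
    rw [Pool.Agent.V11296.CY.card_tk] at h
    exact h
  have hW2 : ∀ (g : ZMod k × ZMod k) (u : ℕ), Pool.Agent.V11296.CY.Wn t c
      (fun p => Pool.Agent.V11296.CY.pr k (Pool.Agent.V11296.CY.HH c ρ k p)) g (k ^ 2) q u := by
    intro g u
    have h := Pool.Agent.V11296.CY.wn_HH hF hR hρ' k (Pool.Agent.V11296.CY.pr k)
      (Pool.Agent.V11296.CY.pr_surj k) g hq (u := u)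
    rw [Pool.Agent.V11296.CY.card_tk2] at h
    exact h
  have hdd : ∀ n d : ℕ, d ∈ (n ^ 2 + t * n + c).divisors →
      d * ((n ^ 2 + t * n + c) / d) = n ^ 2 + t * n + c := fun n d hd =>
    Nat.mul_div_cancel' (Nat.mem_divisors.1 hd).1
  refine ⟨?_, ?_, ?_⟩
  · intro r i j l s₁ s₂ s₃ s₄ h1 h2 h3 h4 h5 h6 ε hε
    have h := hW ((i : ZMod k), (j : ZMod k), (l : ZMod k)) a r s₁ s₂ s₃ s₄ h1 h2 h3 h4 h5 h6 ε hε
    refine Pool.Agent.TH890.DV.LogNull.of_ev 0 (fun X _ hX => ?_) h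
    refine lt_of_lt_of_le hX (le_of_eq ?_)
    rw [Pool.Agent.V11296.CY.conv_d ht hc _ q a r s₁ s₂ s₃ s₄ h3 h6 X]
    congr 1
    refine sum_congr (by congr!) fun n _ => sum_congr rfl fun d hd => ?_
    have hd1 := hdd n d (mem_filter.1 hd).1
    have h7 : Pool.Agent.V11296.CY.HH c ρ k (d, (n ^ 2 + t * n + c) / d) =
        ((i : ZMod k), (j : ZMod k), (l : ZMod k)) ↔ (Omega d ≡ i [MOD k] ∧
          Omega ((n ^ 2 + t * n + c) / d) ≡ j [MOD k] ∧ marked t c ρ n ≡ l [MOD k]) :=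
      Pool.Agent.V11296.CY.HH_iff (ρ := ρ) (k := k) ht hd1 i j l
    unfold Pool.Agent.V11296.CY.dv
    push_cast
    congr 1
    by_cases h8 : Pool.Agent.V11296.CY.HH c ρ k (d, (n ^ 2 + t * n + c) / d) =
        ((i : ZMod k), (j : ZMod k), (l : ZMod k))
    · rw [if_pos h8, if_pos (h7.1 h8)]
    · rw [if_neg h8, if_neg (fun h9 => h8 (h7.2 h9))]
  · intro j l
    have h := Pool.Agent.V11296.CY.tendg hF hq (hW2 ((j : ZMod k), (l : ZMod k)) a)
    have hqv : ∀ n : ℕ, Pool.Agent.W78.EG.qv 1 t c n = n ^ 2 + t * n + c := by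
      intro n
      unfold Pool.Agent.W78.EG.qv
      rw [one_mul]
      exact_mod_cast Int.toNat_natCast (n ^ 2 + t * n + c)
    have hwt : ∀ n : ℕ, Pool.Agent.W78.EG.wq 1 t c n = weight t c n := by
      intro n
      unfold Pool.Agent.W78.EG.wq weight
      rw [hqv]
    push_cast at h
    refine h.congr fun N => ?_
    congr 1
    · conv_rhs => rw [← filter_filter, sum_filter]
      refine sum_congr (by congr!) fun n _ => ?_
      rw [hqv]
      by_cases h8 : Omega (n ^ 2 + t * n + c) ≡ j [MOD k] ∧ marked t c ρ n ≡ l [MOD k]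
      · rw [if_pos h8, sum_filter]
        unfold weight
        refine sum_congr rfl fun d hd => ?_
        rw [if_pos ((Pool.Agent.V11296.CY.prHH_iff (ρ := ρ) (k := k) ht hc (hdd n d hd) j l).2 h8),
          Nat.cast_max]
      · rw [if_neg h8, sum_filter]
        refine sum_eq_zero fun d hd => ?_
        rw [if_neg (fun h9 => h8
          ((Pool.Agent.V11296.CY.prHH_iff (ρ := ρ) (k := k) ht hc (hdd n d hd) j l).1 h9))]
    · refine sum_congr (by congr!) fun n _ => hwt n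
  · intro i j l
    have hk3 : 1 ≤ k ^ 3 := Nat.one_le_pow _ _ hk
    have hcnt : ∀ X : ℕ, Pool.Agent.V11296.CY.cfg t c q a
        (fun p => Pool.Agent.V11296.CY.HH c ρ k p) ((i : ZMod k), (j : ZMod k), (l : ZMod k)) X =
        count t c ρ k q a i j l X := by
      intro X
      unfold Pool.Agent.V11296.CY.cfg count
      congr 1
      refine filter_congr fun n _ => ?_
      constructor
      · rintro ⟨h1, d, e, h2, h3, h4, h5⟩
        have h6 := (Pool.Agent.V11296.CY.HH_iff (ρ := ρ) (k := k) ht h4 i j l).1 h5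
        exact ⟨h1, h6.2.2, d, e, h2, h3, h4, h6.1, h6.2.1⟩
      · rintro ⟨h1, h2, d, e, h3, h4, h5, h6, h7⟩
        exact ⟨h1, d, e, h3, h4, h5,
          (Pool.Agent.V11296.CY.HH_iff (ρ := ρ) (k := k) ht h5 i j l).2 ⟨h6, h7, h2⟩⟩
    constructor
    · intro ε hε
      have h := Pool.Agent.V11296.CY.cntg hF hq hk3 (hW ((i : ZMod k), (j : ZMod k), (l : ZMod k)) a)
        ε hε
      refine Pool.Agent.TH890.DV.LogNull.of_ev 0 (fun X _ hX => ?_) h
      rw [hcnt]
      exact hX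
    · intro δ hδ
      obtain ⟨N₀, hN₀⟩ := Pool.Agent.V11296.CY.cntgAll hF hq hk3
        (hW ((i : ZMod k), (j : ZMod k), (l : ZMod k)) a) δ hδ
      refine ⟨N₀, fun X hX => ?_⟩
      have h := hN₀ X hX
      rw [hcnt] at h
      exact h

end Pool.Agent.Results.MP_f1a94e_nt.ArbitraryRoots
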