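import Pool.Agent.Y879.GL.QuadU
import Pool.Agent.Y879.GL.Pattern

set_option autoImplicit false

/-!
# `n ^ 2 + 1` almost prime in progressions to large moduli: the laws of the gaps

Call `m` good if `(q m + b) ^ 2 + 1` has no prime factor up to `N ^ (1 / r)`. Uniformly for all progressions
`b mod q` with `q`, `b` up to any fixed power of `N`, `q` prime to `b ^ 2 + 1` and `q ≤ B φ(q)`, in EVERY interval
`(u, u + Y]` with `Y ≥ N ^ θ`, the distances of the good integers to the `l`-th good integer before them have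
the Gamma distributions of a Poisson process of the density `V`. The case `q = 1`, `b = 0` is `n ^ 2 + 1`.
-/

namespace Pool.Agent.Results.MP_f1a94e_nt.GapLawsInProgressions

open Polynomial Finset Filter

/-- No prime `p ≤ N ^ (1 / r)` divides `(q m + b) ^ 2 + 1`. -/
def Good (q b N r m : ℕ) : Prop :=
  ∀ p : ℕ, p.Prime → (p : ℝ) ≤ (N : ℝ) ^ (1 / (r : ℝ)) → ¬ p ∣ (q * m + b) ^ 2 + 1

open Classical in
/-- The number of the good `m` in `(u, u + Y]` with fewer than `l` good integers in `[m - T, m)`. -/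
noncomputable def G (q b N r l T u Y : ℕ) : ℕ :=
  ((Ioc u (u + Y)).filter (fun m => Good q b N r m ∧
    ((Ico (m - T) m).filter (fun t => Good q b N r t)).card < l)).card

/-- The product over the primes `p ≤ N ^ (1 / r)` of `1 - w(p) / p`, with `w(p)` the number of the residues
`m` modulo `p` for which `p` divides `(q m + b) ^ 2 + 1`. -/
noncomputable def V (q b N r : ℕ) : ℝ :=
  ∏ p ∈ (Icc 1 ⌊(N : ℝ) ^ (1 / (r : ℝ))⌋₊).filter Nat.Prime,
    (1 - (((range p).filter (fun m : ℕ => p ∣ (q * m + b) ^ 2 + 1)).card : ℝ) / p)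

open Pool.Agent.TH464.PO Pool.Agent.TH464.PW Pool.Agent.W123.RU.Poly Pool.Agent.W123.RP
open Pool.Agent.H373R2.T7 Pool.Agent.Y879.GL

/-- the system -/
noncomputable def sy (q b : ℕ) : Fin 1 → ℤ[X] :=
  fun _ => quad ((q : ℤ) ^ 2) (2 * q * b) ((b : ℤ) ^ 2 + 1)

lemma sy_Q (q b p m : ℕ) : Q (sy q b) p m ↔ p ∣ (q * m + b) ^ 2 + 1 := by
  unfold Q sy
  rw [exists_const, quad_eval]
  have : ((q : ℤ) ^ 2 * (m : ℤ) ^ 2 + 2 * q * b * m + ((b : ℤ) ^ 2 + 1)) =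
      (((q * m + b) ^ 2 + 1 : ℕ) : ℤ) := by push_cast; ring
  rw [this, Int.natCast_dvd_natCast]

lemma good_iff (q b N r m : ℕ) :
    Sf (Q (sy q b)) ⌊(N : ℝ) ^ (1 / (r : ℝ))⌋₊ m ↔ Good q b N r m := by
  have h0 : (0 : ℝ) ≤ (N : ℝ) ^ (1 / (r : ℝ)) := by positivity
  constructor
  · intro h p hp hpX hd
    exact h p (mem_pz.2 ⟨Nat.le_floor hpX, hp⟩) ((sy_Q q b p m).2 hd)
  · intro h p hp hd
    obtain ⟨h1, h2⟩ := mem_pz.1 hp
    exact h p h2 ((Nat.le_floor_iff h0).1 h1) ((sy_Q q b p m).1 hd)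

/-- the number of the classes -/
def w (q b p : ℕ) : ℕ := ((range p).filter (fun m : ℕ => p ∣ (q * m + b) ^ 2 + 1)).card

lemma nu_eq (q b p : ℕ) : nuB (Q (sy q b)) p = w q b p := by
  classical
  unfold nuB w
  congr 1
  ext m
  simp only [mem_filter, sy_Q]

lemma V_eq (q b N r : ℕ) : Vq (Q (sy q b)) ⌊(N : ℝ) ^ (1 / (r : ℝ))⌋₊ = V q b N r := by
  unfold Vq V pz
  apply Finset.prod_congr rfl
  intro p _
  rw [nu_eq]
  rfl

lemma w_ge (q b p : ℕ) (hp : p.Prime) (hq : ¬ p ∣ q) : w 1 0 p ≤ w q b p := by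
  classical
  have : Fact p.Prime := ⟨hp⟩
  have hq0 : (q : ZMod p) ≠ 0 := fun h => hq ((ZMod.natCast_eq_zero_iff q p).1 h)
  unfold w
  apply Finset.card_le_card_of_injOn (fun x : ℕ => (((x : ZMod p) - b) / q).val)
  · intro x hx
    rw [mem_coe, mem_filter, mem_range, one_mul, add_zero] at hx
    rw [mem_coe, mem_filter, mem_range]
    refine ⟨ZMod.val_lt _, ?_⟩
    rw [← ZMod.natCast_eq_zero_iff]
    push_cast
    rw [ZMod.natCast_val, ZMod.cast_id]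
    have h1 := (ZMod.natCast_eq_zero_iff _ p).2 hx.2
    push_cast at h1
    have h2 : (q : ZMod p) * (((x : ZMod p) - b) / q) + b = x := by
      field_simp
      ring
    rw [h2]
    exact h1
  · intro x hx y hy h
    rw [mem_coe, mem_filter, mem_range] at hx hy
    have h1 : (((x : ZMod p) - b) / q) = (((y : ZMod p) - b) / q) := ZMod.val_injective p h
    have h2 : (x : ZMod p) = y := by
      field_simp at h1
      linear_combination h1
    have h3 := congrArg ZMod.val h2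
    rwa [ZMod.val_natCast, ZMod.val_natCast, Nat.mod_eq_of_lt hx.1, Nat.mod_eq_of_lt hy.1] at h3

lemma quad_gcd (q b : ℕ) (hc : Nat.Coprime q (b ^ 2 + 1)) (p : ℕ) (hp : p.Prime) :
    ¬ ((p : ℤ) ∣ (q : ℤ) ^ 2 ∧ (p : ℤ) ∣ 2 * q * b ∧ (p : ℤ) ∣ (b : ℤ) ^ 2 + 1) := by
  rintro ⟨h1, _, h3⟩
  have h4 : p ∣ q := by
    have : p ∣ q ^ 2 := by exact_mod_cast h1
    exact hp.dvd_of_dvd_pow this
  have h5 : p ∣ b ^ 2 + 1 := by exact_mod_cast h3
  exact hp.one_lt.ne' (Nat.dvd_one.1 (hc ▸ Nat.dvd_gcd h4 h5))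

lemma quad_disc (q b : ℕ) (hq : 1 ≤ q) :
    ¬ IsSquare ((2 * (q : ℤ) * b) ^ 2 - 4 * (q : ℤ) ^ 2 * ((b : ℤ) ^ 2 + 1)) := by
  rintro ⟨s, hs⟩
  have hq' : (1 : ℤ) ≤ q := by exact_mod_cast hq
  nlinarith [mul_self_nonneg s]

lemma quad_par (q b : ℕ) (hc : Nat.Coprime q (b ^ 2 + 1)) :
    ¬ (Even ((q : ℤ) ^ 2 + 2 * q * b) ∧ Even ((b : ℤ) ^ 2 + 1)) := by
  rintro ⟨h1, h2⟩
  have h3 : Even (q : ℤ) := by
    have h4 : Even ((q : ℤ) ^ 2) := by
      have h5 : Even (2 * (q : ℤ) * b) := ⟨q * b, by ring⟩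
      exact (Int.even_add.1 h1).2 h5
    exact (Int.even_pow.1 h4).1
  have h6 : 2 ∣ q := by
    have := (Int.even_coe_nat q).1 h3
    exact this.two_dvd
  have h7 : 2 ∣ b ^ 2 + 1 := by
    have h8 : Even (((b ^ 2 + 1 : ℕ)) : ℤ) := by push_cast; exact h2
    exact ((Int.even_coe_nat _).1 h8).two_dvd
  have := Nat.dvd_gcd h6 h7
  rw [hc] at this
  omega

lemma w_le_two (p : ℕ) (hp : p.Prime) : w 1 0 p ≤ 2 := by
  have h := rho_prim (quad 1 0 1) (quad_prim 1 0 1 (fun p hp ⟨h1, _, _⟩ => by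
    have := Int.natAbs_dvd_natAbs.2 h1
    simp at this
    exact hp.one_lt.ne' this)) p hp
  rw [quad_deg 1 0 1 one_ne_zero] at h
  refine le_trans (le_of_eq ?_) h
  unfold w Pool.Agent.H474R2.PG.rho
  congr 1
  ext m
  simp only [mem_filter, quad_eval]
  have : ((1 : ℤ) * (m : ℤ) ^ 2 + 0 * m + 1) = (((1 * m + 0) ^ 2 + 1 : ℕ) : ℤ) := by push_cast; ring
  rw [this, Int.natCast_dvd_natCast]

lemma w_two : w 1 0 2 = 1 := by
  unfold w
  decide

/-- one factor -/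
lemma factor_ge (p : ℕ) (hp : p.Prime) : (1 - 1 / (p : ℝ)) ^ 3 ≤ 1 - (w 1 0 p : ℝ) / p := by
  rcases hp.two_le.eq_or_lt with h | h
  · rw [← h, w_two]
    norm_num
  · have h3 : (3 : ℝ) ≤ p := by exact_mod_cast h
    have hp0 : (0 : ℝ) < p := by linarith
    have h4 : (w 1 0 p : ℝ) ≤ 2 := by exact_mod_cast w_le_two p hp
    have h5 : (w 1 0 p : ℝ) / p ≤ 2 / p := by gcongr
    have h6 : (1 - 1 / (p : ℝ)) ^ 3 ≤ 1 - 2 / p := by
      have hx0 : 0 < 1 / (p : ℝ) := by positivity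
      have hx1 : 1 / (p : ℝ) ≤ 1 / 3 := by gcongr
      have e : 2 / (p : ℝ) = 2 * (1 / p) := by ring
      rw [e]
      obtain ⟨x, hx⟩ : ∃ x, x = 1 / (p : ℝ) := ⟨_, rfl⟩
      rw [← hx] at hx0 hx1 ⊢
      nlinarith [mul_nonneg hx0.le (by linarith : 0 ≤ 1 - 3 * x), mul_pos hx0 hx0,
        mul_pos (mul_pos hx0 hx0) hx0]
    linarith

lemma w_nonneg_factor (q b p : ℕ) (hp : p.Prime) : 0 ≤ 1 - (w q b p : ℝ) / p ∧ 1 - (w q b p : ℝ) / p ≤ 1 := by
  have hp0 : (0 : ℝ) < p := by exact_mod_cast hp.pos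
  constructor
  · rw [sub_nonneg, div_le_one hp0]
    unfold w
    exact_mod_cast (Finset.card_filter_le _ _).trans (by rw [card_range])
  · have : 0 ≤ (w q b p : ℝ) / p := by positivity
    linarith

/-- the density in a progression -/
lemma V_le (q b N r : ℕ) (hq : 1 ≤ q) :
    V q b N r * ((q.totient : ℝ) / q) ^ 3 ≤ V 1 0 N r := by
  classical
  obtain ⟨y, hy⟩ : ∃ y, y = ⌊(N : ℝ) ^ (1 / (r : ℝ))⌋₊ := ⟨_, rfl⟩
  have hq0 : (q : ℝ) ≠ 0 := by exact_mod_cast (by omega : q ≠ 0)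
  have htot : ((q.totient : ℝ) / q) = ∏ p ∈ q.primeFactors, (1 - 1 / (p : ℝ)) := by
    have h := Nat.totient_eq_mul_prod_factors q
    have h2 : ((q.totient : ℚ) : ℝ) = ((q * ∏ p ∈ q.primeFactors, (1 - (p : ℚ)⁻¹) : ℚ) : ℝ) := by
      rw [h]
    push_cast at h2
    rw [h2, mul_div_cancel_left₀ _ hq0]
    simp only [one_div]
  have hfac : ∀ p : ℕ, p.Prime → 0 < 1 - 1 / (p : ℝ) ∧ 1 - 1 / (p : ℝ) ≤ 1 := by
    intro p hp
    have h2 : (1 : ℝ) < p := by exact_mod_cast hp.one_lt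
    constructor
    · rw [sub_pos, div_lt_one (by linarith)]
      exact h2
    · have : 0 ≤ 1 / (p : ℝ) := by positivity
      linarith
  have h1 : ((q.totient : ℝ) / q) ^ 3 ≤
      ∏ p ∈ (Icc 1 y).filter Nat.Prime, (if p ∣ q then (1 - 1 / (p : ℝ)) ^ 3 else 1) := by
    rw [← Finset.prod_filter (fun p => p ∣ q), Finset.prod_pow]
    have hsub : ((Icc 1 y).filter Nat.Prime).filter (fun p => p ∣ q) ⊆ q.primeFactors := by
      intro p hp
      obtain ⟨h1, h2⟩ := mem_filter.1 hp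
      exact Nat.mem_primeFactors.2 ⟨(mem_filter.1 h1).2, h2, by omega⟩
    have hpos : 0 ≤ (q.totient : ℝ) / q := by positivity
    apply pow_le_pow_left₀ hpos
    rw [htot, ← Finset.prod_sdiff hsub]
    apply mul_le_of_le_one_left
    · exact Finset.prod_nonneg fun p hp => (hfac p (mem_filter.1 (mem_filter.1 hp).1).2).1.le
    · apply Finset.prod_le_one
      · intro p hp
        exact (hfac p (Nat.prime_of_mem_primeFactors (mem_sdiff.1 hp).1)).1.le
      · intro p hp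
        exact (hfac p (Nat.prime_of_mem_primeFactors (mem_sdiff.1 hp).1)).2
  have hV0 : 0 ≤ V q b N r := by
    unfold V
    exact Finset.prod_nonneg fun p hp => (w_nonneg_factor q b p (mem_filter.1 hp).2).1
  refine (mul_le_mul_of_nonneg_left h1 hV0).trans ?_
  unfold V
  rw [← hy, ← Finset.prod_mul_distrib]
  apply Finset.prod_le_prod
  · intro p hp
    have hpp := (mem_filter.1 hp).2
    apply mul_nonneg (w_nonneg_factor q b p hpp).1
    split_ifs
    · exact pow_nonneg (hfac p hpp).1.le 3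
    · norm_num
  · intro p hp
    have hpp := (mem_filter.1 hp).2
    have hp0 : (0 : ℝ) < p := by exact_mod_cast hpp.pos
    split_ifs with hpq
    · refine le_trans (mul_le_of_le_one_left (pow_nonneg (hfac p hpp).1.le 3)
        (w_nonneg_factor q b p hpp).2) (factor_ge p hpp)
    · rw [mul_one]
      have h2 : (w 1 0 p : ℝ) ≤ w q b p := by exact_mod_cast w_ge q b p hpp hpq
      have h3 : (w 1 0 p : ℝ) / p ≤ (w q b p : ℝ) / p := by gcongr
      unfold w at h3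
      linarith

/-- few prime factors -/
lemma few {A q b N r m : ℕ} (hr : 1 ≤ r) (hN : 3 ≤ N) (hq : q ≤ N ^ A) (hb : b ≤ N ^ A) (hm : m ≤ N)
    (hg : Good q b N r m) : ((q * m + b) ^ 2 + 1).primeFactorsList.length ≤ (2 * A + 4) * r := by
  have hr0 : (0 : ℝ) < r := by exact_mod_cast hr
  have hN2 : (3 : ℝ) ≤ N := by exact_mod_cast hN
  have hN0 : (0 : ℝ) < N := by linarith
  have hpow : ((N : ℝ) ^ (1 / (r : ℝ))) ^ r = N := by
    rw [← Real.rpow_natCast, ← Real.rpow_mul hN0.le, one_div, inv_mul_cancel₀ hr0.ne', Real.rpow_one]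
  apply few_of_rough ((N : ℝ) ^ (1 / (r : ℝ)))
    (Real.one_lt_rpow (by linarith) (by positivity)) _ _ (by omega)
  · rw [mul_comm (2 * A + 4) r, pow_mul, hpow]
    have h1 : q * m + b ≤ 2 * N ^ (A + 1) := by
      have h2 : q * m ≤ N ^ A * N := Nat.mul_le_mul hq hm
      have h3 : N ^ A ≤ N ^ (A + 1) := Nat.pow_le_pow_right (by omega) (by omega)
      rw [← pow_succ] at h2
      omega
    have h4 : (q * m + b) ^ 2 + 1 ≤ N ^ (2 * A + 4) := by
      have h5 : 1 ≤ N ^ (2 * A + 2) := Nat.one_le_pow _ _ (by omega)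
      calc (q * m + b) ^ 2 + 1 ≤ (2 * N ^ (A + 1)) ^ 2 + 1 := by gcongr
        _ = 4 * N ^ (2 * A + 2) + 1 := by ring
        _ ≤ 9 * N ^ (2 * A + 2) := by omega
        _ ≤ (N * N) * N ^ (2 * A + 2) := by gcongr; nlinarith
        _ = N ^ (2 * A + 4) := by ring
    exact_mod_cast h4
  · intro p hp hpd
    by_contra hcon
    rw [not_lt] at hcon
    exact hg p hp hcon hpd

/-- **The laws of the gaps of the `n ≡ b mod q` with `n ^ 2 + 1` almost prime**, uniformly in `q` and `b`. -/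
theorem result (A : ℕ) (θ : ℝ) (hθ : 0 < θ) (l₀ : ℕ) (x₀ ε : ℝ) (hε : 0 < ε) :
    ∃ r₀ : ℕ, 2 ≤ r₀ ∧ ∀ r : ℕ, r₀ ≤ r → ∀ B : ℝ, ∃ N₀ : ℕ, ∀ N : ℕ, N₀ ≤ N → ∀ q b : ℕ,
      1 ≤ q → q ≤ N ^ A → b ≤ N ^ A → Nat.Coprime q (b ^ 2 + 1) → (q : ℝ) ≤ B * q.totient →
      (∀ m : ℕ, m ≤ N → Good q b N r m →
        ((q * m + b) ^ 2 + 1).primeFactorsList.length ≤ (2 * A + 4) * r) ∧
      ∀ u Y : ℕ, (N : ℝ) ^ θ ≤ Y → ∀ l T : ℕ, (l ≤ l₀ ∨ T * V q b N r ≤ x₀) →
        |(G q b N r l T u Y : ℝ) - Y * V q b N r *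
          ∑ j ∈ range l, Real.exp (-(T * V q b N r)) * (T * V q b N r) ^ j / j.factorial| ≤
        ε * (Y * V q b N r) := by
  classical
  obtain ⟨r0, h0⟩ := gap_polys 1 2 ((2 * A + 1 : ℕ) : ℝ) 1 θ (by exact_mod_cast Nat.succ_pos _) one_pos hθ
    l₀ x₀ ε hε
  refine ⟨max r0 2, le_max_right _ _, ?_⟩
  intro r hr B
  have hr2 : 2 ≤ r := (le_max_right _ _).trans hr
  have hsys : Sys (sy 1 0) := by
    have := qs_sys ((1 : ℕ) ^ 2 : ℤ) (2 * (1 : ℕ) * (0 : ℕ)) (((0 : ℕ) : ℤ) ^ 2 + 1) (by norm_num)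
      (fun p hp => quad_gcd 1 0 (by norm_num) p hp) (quad_par 1 0 (by norm_num))
      (quad_disc 1 0 le_rfl)
    exact this
  obtain ⟨C, hC, hV0⟩ := V_from_sys (sy 1 0) hsys r hr2
  obtain ⟨N0, hN0⟩ := eventually_atTop.1 ((h0 r ((le_max_left _ _).trans hr) (|B| ^ 3 * C)).and
    (hV0.and (eventually_ge_atTop 3)))
  refine ⟨N0, ?_⟩
  intro N hN q b hq hqN hbN hc hB
  obtain ⟨c1, c2, c3⟩ := hN0 N hN
  refine ⟨fun m hm hg => few (by omega) c3 hqN hbN hm hg, ?_⟩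
  intro u Y hY l T hT
  have hN1 : (1 : ℤ) ≤ (N : ℤ) ^ A := one_le_pow₀ (by exact_mod_cast (by omega : 1 ≤ N))
  have hN3 : (3 : ℤ) ≤ N := by exact_mod_cast c3
  have hqz : (q : ℤ) ≤ (N : ℤ) ^ A := by exact_mod_cast hqN
  have hbz : (b : ℤ) ≤ (N : ℤ) ^ A := by exact_mod_cast hbN
  have hq0 : (0 : ℤ) ≤ q := Int.natCast_nonneg _
  have hb0 : (0 : ℤ) ≤ b := Int.natCast_nonneg _
  have e2 : (N : ℤ) ^ (2 * A + 1) = (N : ℤ) ^ A * (N : ℤ) ^ A * N := by
    rw [pow_succ, two_mul, pow_add]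
  have hAA : (1 : ℤ) ≤ (N : ℤ) ^ A * (N : ℤ) ^ A := one_le_mul_of_one_le_of_one_le hN1 hN1
  have hqne : (q : ℤ) ^ 2 ≠ 0 := pow_ne_zero _ (by exact_mod_cast (by omega : q ≠ 0))
  have hus : US 1 2 ((N : ℝ) ^ ((2 * A + 1 : ℕ) : ℝ)) ((N : ℝ) ^ (1 : ℝ)) (sy q b) := by
    refine us_single (quad ((q : ℤ) ^ 2) (2 * q * b) ((b : ℤ) ^ 2 + 1))
      (quad_irr _ _ _ hqne (fun p hp => quad_gcd q b hc p hp) (quad_disc q b hq)) ?_ 2 ?_ _ _ ?_ ?_
    · rw [quad_deg _ _ _ hqne]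
      norm_num
    · rw [quad_deg _ _ _ hqne]
    · intro n
      rw [Real.rpow_natCast]
      have h4 := quad_coeff ((q : ℤ) ^ 2) (2 * q * b) ((b : ℤ) ^ 2 + 1) n ((N : ℤ) ^ (2 * A + 1)) ?_ ?_ ?_
      · exact_mod_cast h4
      · rw [abs_of_nonneg (by positivity), e2]
        have h5 : (q : ℤ) ^ 2 ≤ (N : ℤ) ^ A * (N : ℤ) ^ A := by
          rw [pow_two]
          exact mul_le_mul hqz hqz hq0 (by omega)
        nlinarith
      · rw [abs_of_nonneg (by positivity), e2, mul_assoc]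
        have h5 : (q : ℤ) * b ≤ (N : ℤ) ^ A * (N : ℤ) ^ A := mul_le_mul hqz hbz hb0 (by omega)
        nlinarith
      · rw [abs_of_nonneg (by positivity), e2]
        have h5 : (b : ℤ) ^ 2 ≤ (N : ℤ) ^ A * (N : ℤ) ^ A := by
          rw [pow_two]
          exact mul_le_mul hbz hbz hb0 (by omega)
        nlinarith
    · intro p hp
      exact quad_adm _ _ _ (fun p hp => quad_gcd q b hc p hp) (quad_par q b hc) p hp
  have hq1 : (0 : ℝ) < q := by exact_mod_cast hq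
  have htot : (0 : ℝ) < q.totient := by exact_mod_cast Nat.totient_pos.2 (by omega)
  have hlog : 0 < Real.log N := Real.log_pos (by exact_mod_cast (by omega : 1 < N))
  have hVle : Vq (Q (sy q b)) ⌊(N : ℝ) ^ (1 / (r : ℝ))⌋₊ ≤ |B| ^ 3 * C / Real.log N := by
    rw [V_eq]
    have h1 := V_le q b N r hq
    have h2 : V 1 0 N r ≤ C / Real.log N := by
      have := (c2 (Q (sy 1 0)) (fun _ _ _ h => h)).2
      rwa [V_eq] at this
    have h3 : V q b N r = V q b N r * ((q.totient : ℝ) / q) ^ 3 * ((q : ℝ) / q.totient) ^ 3 := by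
      rw [mul_assoc, ← mul_pow, div_mul_div_cancel₀ hq1.ne', div_self htot.ne', one_pow, mul_one]
    have h4 : ((q : ℝ) / q.totient) ≤ |B| := by
      rw [div_le_iff₀ htot]
      exact hB.trans (mul_le_mul_of_nonneg_right (le_abs_self B) htot.le)
    rw [h3]
    calc V q b N r * ((q.totient : ℝ) / q) ^ 3 * ((q : ℝ) / q.totient) ^ 3
        ≤ (C / Real.log N) * |B| ^ 3 := by
          apply mul_le_mul (h1.trans h2) (pow_le_pow_left₀ (by positivity) h4 3) (by positivity)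
            (by positivity)
      _ = |B| ^ 3 * C / Real.log N := by ring
  have key := c1 (sy q b) hus hVle u Y hY l T (by rw [V_eq]; exact hT)
  rw [V_eq] at key
  have hG : Pk (Sf (Q (sy q b)) ⌊(N : ℝ) ^ (1 / (r : ℝ))⌋₊) l T u Y = G q b N r l T u Y := by
    unfold Pk G
    simp only [good_iff]
  rw [hG] at key
  exact key

end Pool.Agent.Results.MP_f1a94e_nt.GapLawsInProgressions
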