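import Pool.Agent.V11296.CW2

/-!
The factorisations `F(n) = d d'` of the values `n^2+1`, and of those of eight further polynomials
`F`: equidistribution of `H₁(d) + H₂(d')` in a finite abelian group, for completely additive `H₁`,
`H₂` with `H₁(p) + H₂(p)` constant and `H₁(p)` determined by the residue class of a prime element of
norm `p`.

The starting files have the cancellation theorems `W251.EG.tsG`, `W251.EG.twG` for products
`g₁(d) g₂(d')` of completely multiplicative functions one of which is aperiodic, and the criterion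
`W251.EG.apdE` for aperiodicity. New here are the group-valued form, the determination of the
subgroup and of the coset in which the values are equidistributed (the only obstruction comes from
residue classes), and the case `H₁ ≠ H₂`, for example the differences of the numbers of the prime
factors of `d` and `d'` in all residue classes modulo `m` simultaneously.
-/

set_option autoImplicit false

namespace Pool.Agent.Results.MP_f1a94e_nt.GroupValuedPairs

open Finset Filter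

open scoped Classical in
/-- the set of the positive integers `X` with `P X` has logarithmic density `0` -/
def LogNull (P : ℕ → Prop) : Prop :=
  Tendsto (fun Z : ℕ => (∑ X ∈ (Icc 1 Z).filter P, 1 / (X : ℝ)) / Real.log Z) atTop (nhds 0)

/-- the nine pairs `(t, c)` with `t` in `{0, 1}` and `x^2+tx+c` of discriminant `-4`, `-8`, `-3`,
`-7`, `-11`, `-19`, `-43`, `-67`, `-163` -/
def nine : List (ℕ × ℕ) :=
  [(0, 1), (0, 2), (1, 1), (1, 2), (1, 3), (1, 5), (1, 11), (1, 17), (1, 41)]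

/-- `H₁` and `H₂` map products to sums, `H₁ p + H₂ p = τ` for all primes `p`, `E` is periodic
modulo `m` in both variables, and `H₁ p = E x y` whenever `p = x^2+txy+cy^2` is a prime not
dividing `m` -/
structure AdditivePair {A : Type} [AddCommGroup A] (t c m : ℕ) (E : ℤ → ℤ → A) (τ : A)
    (H₁ H₂ : ℕ → A) : Prop where
  pos : 1 ≤ m
  add₁ : ∀ x y : ℕ, x ≠ 0 → y ≠ 0 → H₁ (x * y) = H₁ x + H₁ y
  add₂ : ∀ x y : ℕ, x ≠ 0 → y ≠ 0 → H₂ (x * y) = H₂ x + H₂ y
  two : ∀ p : ℕ, p.Prime → H₁ p + H₂ p = τ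
  per : ∀ x y u v : ℤ, x ≡ u [ZMOD m] → y ≡ v [ZMOD m] → E x y = E u v
  val : ∀ (x y : ℤ) (p : ℕ), p.Prime → ¬ p ∣ m → x ^ 2 + t * x * y + c * y ^ 2 = p → H₁ p = E x y

/-- the subgroup of `A` generated by `τ` and by all `E(z) + E(w) - E(z w)`, for `z = x + y ω`,
`w = u + v ω` of norms prime to `m`, where `ω^2 = t ω - c`, the norm of `z` is `x^2+txy+cy^2` and
`E(z) = E(x, y)` -/
def defects {A : Type} [AddCommGroup A] (t c m : ℕ) (E : ℤ → ℤ → A) (τ : A) : AddSubgroup A :=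
  AddSubgroup.closure {g | ∃ x y u v : ℤ,
    IsCoprime (x ^ 2 + t * x * y + c * y ^ 2) (m : ℤ) ∧
    IsCoprime (u ^ 2 + t * u * v + c * v ^ 2) (m : ℤ) ∧
    g = E x y + E u v - E (x * u - c * y * v) (x * v + y * u + t * y * v)} ⊔
  AddSubgroup.zmultiples τ

/-- either `D = defects t c m E τ` is all of `A`, or `m ∣ q`, `a^2+ta+c` is prime to `m`, and
`g ∈ E(z) - E(w) + D` for all `z`, `w` with `z w ≡ a + ω mod m` and `z` of norm `≡ r mod m` -/
def Admissible {A : Type} [AddCommGroup A] (t c m q a r : ℕ) (E : ℤ → ℤ → A) (τ g : A) : Prop :=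
  defects t c m E τ = ⊤ ∨ (m ∣ q ∧ (a ^ 2 + t * a + c).Coprime m ∧
    ∀ x y u v : ℤ, x * u - c * y * v ≡ a [ZMOD m] → x * v + y * u + t * y * v ≡ 1 [ZMOD m] →
      x ^ 2 + t * x * y + c * y ^ 2 ≡ r [ZMOD m] → E x y - E u v - g ∈ defects t c m E τ)

open scoped Classical in
/-- the divisors `d ≡ r mod q` of `n^2+tn+c` with `s₁ X < d ≤ s₂ X` and `s₃ X < d' ≤ s₄ X`, where
`d d' = n^2+tn+c` -/
noncomputable def window (t c q r : ℕ) (s₁ s₂ s₃ s₄ : ℝ) (X n : ℕ) : Finset ℕ :=
  (n ^ 2 + t * n + c).divisors.filter (fun d : ℕ => d ≡ r [MOD q] ∧ s₁ * X < (d : ℝ) ∧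
    (d : ℝ) ≤ s₂ * X ∧ s₃ * X < (((n ^ 2 + t * n + c) / d : ℕ) : ℝ) ∧
    (((n ^ 2 + t * n + c) / d : ℕ) : ℝ) ≤ s₄ * X)

open scoped Classical in
/-- Let `(t, c)` be one of the nine pairs (`(0, 1)` gives `n^2+1`) and `F(n) = n^2+tn+c`; the
integers `n` are `≥ 0` and `≥ 1 - t`. Let `H₁`, `H₂` be completely additive with values in a finite
abelian group `A`, with `H₁(p) + H₂(p) = τ` for all primes `p`, and `H₁(p)` determined by a function
`E`, periodic modulo `m`, of the prime elements of norm `p ∤ m`. Let `D` be the group generated by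
`τ` and the defects of additivity of `E`, and let `g` be admissible for the residue classes `a`, `r`
modulo `q`. Let `0 ≤ s₁ < s₂ ≤ 1`, `0 ≤ s₃ < s₄ ≤ 1`. For every `ε > 0` and all `X` outside a set of
logarithmic density `0`, the number of the factorisations `F(n) = d d'` with `n ≤ X`, `n ≡ a mod q`,
`d ≡ r mod q`, `s₁ X < d ≤ s₂ X`, `s₃ X < d' ≤ s₄ X` and `H₁(d) + H₂(d') = g` differs from `1 / |D|`
times the number of all these factorisations by at most `ε X`; and the same holds for the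
factorisations of the squarefree values `F(n)`. -/
theorem result (t c : ℕ) (htc : (t, c) ∈ nine) (A : Type) [AddCommGroup A] [Finite A] (m : ℕ)
    (E : ℤ → ℤ → A) (τ : A) (H₁ H₂ : ℕ → A) (hH : AdditivePair t c m E τ H₁ H₂) (q a r : ℕ)
    (hq : 1 ≤ q) (g : A) (hg : Admissible t c m q a r E τ g) (s₁ s₂ s₃ s₄ : ℝ) (h1 : 0 ≤ s₁)
    (h2 : s₁ < s₂) (h3 : s₂ ≤ 1) (h4 : 0 ≤ s₃) (h5 : s₃ < s₄) (h6 : s₄ ≤ 1) (ε : ℝ) (hε : 0 < ε) :
    LogNull (fun X : ℕ => ε * X <
      |∑ n ∈ (range (X + 1)).filter (fun n => 1 ≤ n + t ∧ n ≡ a [MOD q]),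
        ∑ d ∈ window t c q r s₁ s₂ s₃ s₄ X n,
        ((if H₁ d + H₂ ((n ^ 2 + t * n + c) / d) = g then (1 : ℝ) else 0) -
          1 / (Nat.card (defects t c m E τ) : ℝ))|) ∧
    LogNull (fun X : ℕ => ε * X <
      |∑ n ∈ (range (X + 1)).filter (fun n => 1 ≤ n + t ∧ n ≡ a [MOD q] ∧
          Squarefree (n ^ 2 + t * n + c)),
        ∑ d ∈ window t c q r s₁ s₂ s₃ s₄ X n,
        ((if H₁ d + H₂ ((n ^ 2 + t * n + c) / d) = g then (1 : ℝ) else 0) -
          1 / (Nat.card (defects t c m E τ) : ℝ))|) := by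
  obtain ⟨_, χ, hF⟩ := Pool.Agent.W251.EG.fd9 t c htc
  have h : Pool.Agent.V11296.CW.Gp t c m E τ H₁ H₂ :=
    ⟨hH.pos, hH.add₁, hH.add₂, hH.two, hH.per, hH.val⟩
  have hal : Pool.Agent.V11296.CW.Alp t c m q a r E τ H₁ H₂ g :=
    Pool.Agent.V11296.CW.alp_of hF h hg
  exact ⟨Pool.Agent.V11296.CW.outAll2 hF h g q a r hq hal s₁ s₂ s₃ s₄ h1 h2 h3 h4 h5 h6 ε hε,
    Pool.Agent.V11296.CW.outSq2 hF h g q a r hq hal s₁ s₂ s₃ s₄ h1 h2 h3 h4 h5 h6 ε hε⟩

end Pool.Agent.Results.MP_f1a94e_nt.GroupValuedPairs
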