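import Pool.Agent.V11249.NP.Reg
import Pool.Agent.V11249.NP.Fam

/-!
# Integers `n ≡ b` modulo `q` with `n ^ 2 + 1` almost prime: regular windows in all short intervals

Let `gcd (q, b ^ 2 + 1) = 1`. There are `r` and `c₁, c₂, K, κ > 0` such that in every interval `(X, X + Y]` with
`X ^ θ ≤ Y ≤ X` at least `κ Y` of the integers `x` are regular: every window `(a, a']` around `x` of length between
`K log X` and `Y` contains between `c₁ (a' - a) / log X` and `c₂ (a' - a) / log X` integers `m` for which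
`(q m + b) ^ 2 + 1` has at most `r` prime factors, all larger than `X ^ (1 / r)`; moreover, at all but boundedly many
dyadic scales these `m` have a constant density around `x`, up to an error `δ`.
-/

set_option autoImplicit false

open Finset Filter Polynomial

namespace Pool.Agent.Results.MP_f1a94e_nt.RegularWindows

/-- `n ^ 2 + 1`, `n = q m + b`, has at most `r` prime factors (with multiplicity), all of them larger than `z` -/
def AlmostPrime (q b r : ℕ) (z : ℝ) (m : ℕ) : Prop :=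
  ((q * m + b) ^ 2 + 1).primeFactorsList.length ≤ r ∧ ∀ p : ℕ, p.Prime → p ∣ (q * m + b) ^ 2 + 1 → z < p

open Classical in
/-- the number of such `m` in `(a, a']`, all prime factors being larger than `X ^ (1 / r)` -/
noncomputable def cnt (q b r X a a' : ℕ) : ℕ :=
  ((Ioc a a').filter (fun m => AlmostPrime q b r ((X : ℝ) ^ (1 / (r : ℝ))) m)).card

/-- all windows `(a, a']` around `x`, of length between `K log X` and `Y`, contain the right order of such `m` -/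
def Regular (q b r : ℕ) (c₁ c₂ K : ℝ) (X Y x : ℕ) : Prop :=
  ∀ a a' : ℕ, a ≤ x → x ≤ a' → K * Real.log X ≤ (a' : ℝ) - a → (a' : ℝ) - a ≤ Y →
    c₁ * ((a' : ℝ) - a) / Real.log X ≤ (cnt q b r X a a' : ℝ) ∧
    (cnt q b r X a a' : ℝ) ≤ c₂ * ((a' : ℝ) - a) / Real.log X

/-- the density is constant on `[x - 2 ^ j, x + 2 ^ j]`, up to `δ` -/
def Constant (q b r : ℕ) (c₁ c₂ δ : ℝ) (X x j : ℕ) : Prop :=
  ∃ lam : ℝ, c₁ ≤ lam ∧ lam ≤ c₂ ∧ ∀ u v : ℕ, x ≤ u + 2 ^ j → u ≤ v → v ≤ x + 2 ^ j →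
    |(cnt q b r X u v : ℝ) - lam * ((v : ℝ) - u) / Real.log X| ≤ δ * 2 ^ j / Real.log X

open Classical in
/-- the number of the scales `2 ^ j` between `log X` and `Y` at which the density is not constant -/
noncomputable def badScales (q b r : ℕ) (c₁ c₂ δ : ℝ) (X Y x : ℕ) : ℕ :=
  ((range (Nat.log 2 Y + 1)).filter (fun j => Real.log X ≤ (2 : ℝ) ^ j ∧ ¬ Constant q b r c₁ c₂ δ X x j)).card

/-- the system -/
noncomputable def F (q b : ℕ) : Fin 1 → ℤ[X] :=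
  fun _ => Pool.Agent.TH464.PW.quad ((q : ℤ) ^ 2) (2 * q * b) ((b : ℤ) ^ 2 + 1)

theorem sys {q b : ℕ} (hq : 1 ≤ q) (hc : Nat.Coprime q (b ^ 2 + 1)) : Pool.Agent.W123.RU.Poly.Sys (F q b) := by
  have hq0 : (0 : ℤ) < (q : ℤ) ^ 2 := by positivity
  have hg : ∀ p : ℕ, p.Prime → ¬ ((p : ℤ) ∣ (q : ℤ) ^ 2 ∧ (p : ℤ) ∣ 2 * q * b ∧ (p : ℤ) ∣ (b : ℤ) ^ 2 + 1) := by
    rintro p hp ⟨h1, -, h3⟩
    have h1' : p ∣ q ^ 2 := by exact_mod_cast h1
    have h3' : p ∣ b ^ 2 + 1 := by exact_mod_cast h3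
    have h4 := Nat.dvd_gcd (hp.dvd_of_dvd_pow h1') h3'
    rw [hc.gcd_eq_one] at h4
    exact hp.one_lt.ne' (Nat.dvd_one.1 h4)
  refine ⟨fun _ => ?_, fun _ => ?_, fun _ => ?_, fun i j _ => Subsingleton.elim i j, fun p hp => ?_⟩
  · refine Pool.Agent.TH464.PW.quad_irr _ _ _ hq0.ne' hg ?_
    rintro ⟨x, hx⟩
    have h1 : (2 * (q : ℤ) * b) ^ 2 - 4 * (q : ℤ) ^ 2 * ((b : ℤ) ^ 2 + 1) = -(4 * (q : ℤ) ^ 2) := by ring
    rw [h1] at hx
    nlinarith [mul_self_nonneg x]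
  · show 0 < (Pool.Agent.TH464.PW.quad _ _ _).natDegree
    rw [Pool.Agent.TH464.PW.quad_deg _ _ _ hq0.ne']
    norm_num
  · show 0 < (Pool.Agent.TH464.PW.quad _ _ _).leadingCoeff
    rw [Pool.Agent.TH464.PW.quad_lead _ _ _ hq0.ne']
    exact hq0
  · obtain ⟨m, hm⟩ := Pool.Agent.TH464.PW.quad_adm ((q : ℤ) ^ 2) (2 * q * b) ((b : ℤ) ^ 2 + 1) hg (by
      rintro ⟨h1, h2⟩
      have h3 : Even ((q : ℤ) ^ 2) := by
        have h4 : Even (2 * (q : ℤ) * b) := ⟨q * b, by ring⟩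
        exact (Int.even_add.1 h1).2 h4
      have h5 : (2 : ℤ) ∣ q := by
        have := (Int.even_pow.1 h3).1
        exact this.two_dvd
      have h6 : 2 ∣ q := by exact_mod_cast h5
      have h7 : 2 ∣ b ^ 2 + 1 := by exact_mod_cast h2.two_dvd
      have h8 := Nat.dvd_gcd h6 h7
      rw [hc.gcd_eq_one] at h8
      omega) p hp
    exact ⟨m, fun _ => hm⟩

theorem ev (q b : ℕ) (i : Fin 1) (m : ℕ) : (F q b i).eval (m : ℤ) = (((q * m + b) ^ 2 + 1 : ℕ) : ℤ) := by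
  unfold F
  rw [Pool.Agent.TH464.PW.quad_eval]
  push_cast
  ring

theorem iff_almost (q b r : ℕ) (z : ℝ) (m : ℕ) :
    AlmostPrime q b r z m ↔ Pool.Agent.TH464.PW.Almost (F q b) r z m := by
  unfold AlmostPrime Pool.Agent.TH464.PW.Almost
  rw [Fin.forall_fin_one, ev, Int.natAbs_natCast]
  refine and_congr_right fun _ => ?_
  constructor
  · intro h p hp hd
    exact h p hp (Int.natCast_dvd_natCast.1 hd)
  · intro h p hp hd
    exact h p hp (Int.natCast_dvd_natCast.2 hd)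

open Classical in
/-- **Regular windows.** Let `q ≥ 1`, `gcd (q, b ^ 2 + 1) = 1`, `0 < θ ≤ 1`. There are `r` and `c₁, c₂, K, κ > 0` such
that for every `δ > 0` there is `B` such that for all large `X` and all `X ^ θ ≤ Y ≤ X`: at least `κ Y` of the `x` in
`(X, X + Y]` are regular and have at most `B` scales at which the density is not constant up to `δ`. -/
theorem result (q b : ℕ) (hq : 1 ≤ q) (hc : Nat.Coprime q (b ^ 2 + 1)) (θ : ℝ) (hθ : 0 < θ) (hθ1 : θ ≤ 1) :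
    ∃ (r : ℕ) (c₁ c₂ K κ : ℝ), 0 < c₁ ∧ 0 < c₂ ∧ 0 < K ∧ 0 < κ ∧ ∀ δ : ℝ, 0 < δ → ∃ B : ℕ,
      ∀ᶠ X : ℕ in atTop, ∀ Y : ℕ, (X : ℝ) ^ θ ≤ Y → Y ≤ X →
        κ * Y ≤ (((Ioc X (X + Y)).filter (fun x =>
          Regular q b r c₁ c₂ K X Y x ∧ badScales q b r c₁ c₂ δ X Y x ≤ B)).card : ℝ) := by
  have h := Pool.Agent.V11249.NP.reg_win (g := 1) (by norm_num) (F q b) (sys hq hc) (AlmostPrime q b)
    (iff_almost q b) θ hθ hθ1
  simp only [pow_one] at h
  exact h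

end Pool.Agent.Results.MP_f1a94e_nt.RegularWindows
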